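import Pool.Agent.H95.RQ.Targets1

/-!
# Module HQP: Herbrand quotients of products and of the trivial module
-/

set_option autoImplicit false

namespace Pool.Agent.H71.RQ

open Pool.Agent.H95.RQ Pool.Agent.H28.RC

section
variable {A A' : Type} [CommGroup A] [CommGroup A']

lemma dl_prodMap (s : A →* A) (s' : A' →* A') :
    dl (s.prodMap s') = (dl s).prodMap (dl s') := by
  ext x <;> simp [dl]

lemma nm_apply (s : A →* A) (n : ℕ) (a : A) : nm s n a = ∏ i ∈ Finset.range n, s^[i] a := rfl

lemma iterate_prodMap (s : A →* A) (s' : A' →* A') (i : ℕ) (a : A) (a' : A') :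
    (s.prodMap s')^[i] (a, a') = (s^[i] a, s'^[i] a') := by
  induction i with
  | zero => rfl
  | succ i ih => rw [Function.iterate_succ_apply', Function.iterate_succ_apply',
      Function.iterate_succ_apply', ih]; rfl

lemma nm_prodMap (s : A →* A) (s' : A' →* A') (n : ℕ) :
    nm (s.prodMap s') n = (nm s n).prodMap (nm s' n) := by
  refine MonoidHom.ext fun x => ?_
  obtain ⟨a, a'⟩ := x
  rw [nm_apply]
  simp only [iterate_prodMap]
  refine Prod.ext ?_ ?_
  · rw [Prod.fst_prod]
    rfl
  · rw [Prod.snd_prod]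
    rfl

lemma map_prodMap (f : A →* A) (f' : A' →* A') (B : Subgroup A) (B' : Subgroup A') :
    (B.prod B').map (f.prodMap f') = (B.map f).prod (B'.map f') := by
  ext ⟨x, y⟩
  simp only [Subgroup.mem_map, Subgroup.mem_prod]
  constructor
  · rintro ⟨⟨a, a'⟩, ⟨h1, h2⟩, h3⟩
    have h4 : (f a, f' a') = (x, y) := h3
    exact ⟨⟨a, h1, congrArg Prod.fst h4⟩, ⟨a', h2, congrArg Prod.snd h4⟩⟩
  · rintro ⟨⟨a, h1, h2⟩, ⟨a', h3, h4⟩⟩
    exact ⟨(a, a'), ⟨h1, h3⟩, Prod.ext h2 h4⟩

lemma relIndex_prod (H K : Subgroup A) (H' K' : Subgroup A') :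
    (H.prod H').relIndex (K.prod K') = H.relIndex K * H'.relIndex K' := by
  unfold Subgroup.relIndex
  rw [← Subgroup.index_prod]
  have h1 : (H.prod H').subgroupOf (K.prod K') =
      ((H.subgroupOf K).prod (H'.subgroupOf K')).comap (Subgroup.prodEquiv K K').toMonoidHom := by
    ext x
    rfl
  rw [h1, Subgroup.index_comap_of_surjective _ (Subgroup.prodEquiv K K').surjective]

lemma prod_inf (B C : Subgroup A) (B' C' : Subgroup A') :
    B.prod B' ⊓ C.prod C' = (B ⊓ C).prod (B' ⊓ C') := by
  ext ⟨x, y⟩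
  simp only [Subgroup.mem_inf, Subgroup.mem_prod]
  tauto

end

lemma index_pow (n : ℕ) (hn : 1 ≤ n) :
    (((⊤ : Subgroup (Multiplicative ℤ))).map (nm (MonoidHom.id (Multiplicative ℤ)) n)).index
      = n := by
  have : NeZero n := ⟨by omega⟩
  let f : Multiplicative ℤ →* Multiplicative (ZMod n) :=
    AddMonoidHom.toMultiplicative (Int.castAddHom (ZMod n))
  have hf : Function.Surjective f := fun y => by
    obtain ⟨k, hk⟩ := ZMod.intCast_surjective (Multiplicative.toAdd y)
    exact ⟨Multiplicative.ofAdd k, congrArg Multiplicative.ofAdd hk⟩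
  have h1 : ((⊤ : Subgroup (Multiplicative ℤ))).map (nm (MonoidHom.id (Multiplicative ℤ)) n) =
      f.ker := by
    ext x
    rw [Subgroup.mem_map, MonoidHom.mem_ker]
    have h2 : f x = 1 ↔ (n : ℤ) ∣ Multiplicative.toAdd x := by
      rw [← ZMod.intCast_zmod_eq_zero_iff_dvd]
      exact Iff.rfl
    rw [h2]
    constructor
    · rintro ⟨y, -, rfl⟩
      rw [nm_apply]
      simp only [MonoidHom.coe_id, Function.iterate_id, id_eq, Finset.prod_const,
        Finset.card_range]
      rw [toAdd_pow]
      exact ⟨Multiplicative.toAdd y, by rw [nsmul_eq_mul]⟩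
    · rintro ⟨k, hk⟩
      refine ⟨Multiplicative.ofAdd k, Subgroup.mem_top _, ?_⟩
      rw [nm_apply]
      simp only [MonoidHom.coe_id, Function.iterate_id, id_eq, Finset.prod_const,
        Finset.card_range]
      apply Multiplicative.toAdd.injective
      rw [toAdd_pow, toAdd_ofAdd, hk, nsmul_eq_mul]
  rw [h1, Subgroup.index_ker, MonoidHom.range_eq_top.2 hf]
  have h3 : Nat.card (⊤ : Subgroup (Multiplicative (ZMod n))) =
      Nat.card (Multiplicative (ZMod n)) := Nat.card_congr Subgroup.topEquiv.toEquiv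
  rw [h3]
  exact Nat.card_zmod n

theorem pf_HQP : T_HQP := by
  refine ⟨?_, ?_⟩
  · intro A A' _ _ s s' n B B'
    unfold h0 h1
    rw [dl_prodMap, nm_prodMap, map_prodMap, map_prodMap, MonoidHom.ker_prodMap,
      MonoidHom.ker_prodMap, prod_inf, prod_inf, relIndex_prod, relIndex_prod]
    exact ⟨rfl, rfl⟩
  · intro n hn
    have e1 : (dl (MonoidHom.id (Multiplicative ℤ))).ker = ⊤ := by
      rw [eq_top_iff]
      intro x _
      rw [MonoidHom.mem_ker]
      show x / x = 1
      exact div_self' x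
    have e2 : ((⊤ : Subgroup (Multiplicative ℤ))).map (dl (MonoidHom.id (Multiplicative ℤ))) =
        ⊥ := by
      rw [eq_bot_iff]
      rintro _ ⟨x, -, rfl⟩
      rw [Subgroup.mem_bot]
      show x / x = 1
      exact div_self' x
    have e3 : (nm (MonoidHom.id (Multiplicative ℤ)) n).ker = ⊥ := by
      rw [eq_bot_iff]
      intro x hx
      rw [MonoidHom.mem_ker, nm_apply] at hx
      simp only [MonoidHom.coe_id, Function.iterate_id, id_eq, Finset.prod_const,
        Finset.card_range] at hx
      rw [Subgroup.mem_bot]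
      have h1 : n • Multiplicative.toAdd x = 0 := by
        rw [← toAdd_pow, hx]
        rfl
      rw [nsmul_eq_mul, mul_eq_zero] at h1
      rcases h1 with h1 | h1
      · have : n = 0 := by exact_mod_cast h1
        omega
      · exact Multiplicative.toAdd.injective h1
    unfold h0 h1
    rw [e1, e2, e3, inf_top_eq, Subgroup.relIndex_top_right, index_pow n hn, inf_bot_eq,
      Subgroup.relIndex_self]
    exact ⟨rfl, rfl⟩

end Pool.Agent.H71.RQ
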