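import Pool.Agent.H95.RQ.Targets2

/-!
# Module TRP: traces of elements integral above `P`
-/

set_option autoImplicit false

open NumberField NumberField.InfinitePlace IsDedekindDomain

namespace Pool.Agent.H71.RQ

open Pool.Agent.H95.RQ Pool.Agent.H28.RC

/-- the ideal of the denominators of `y` -/
def den {E : Type} [Field E] [NumberField E] (y : E) : Ideal (𝓞 E) where
  carrier := {d | ∃ n : 𝓞 E, y * (d : E) = n}
  zero_mem' := ⟨0, by simp⟩
  add_mem' := by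
    rintro a b ⟨n, hn⟩ ⟨m, hm⟩
    refine ⟨n + m, ?_⟩
    have h1 : ((a + b : 𝓞 E) : E) = (a : E) + (b : E) := map_add _ _ _
    have h2 : ((n + m : 𝓞 E) : E) = (n : E) + (m : E) := map_add _ _ _
    rw [h1, h2, mul_add, hn, hm]
  smul_mem' := by
    rintro c a ⟨n, hn⟩
    refine ⟨c * n, ?_⟩
    have h1 : ((c • a : 𝓞 E) : E) = (c : E) * (a : E) := map_mul _ _ _
    have h2 : ((c * n : 𝓞 E) : E) = (c : E) * (n : E) := map_mul _ _ _
    rw [h1, h2, ← hn]
    ring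

lemma mem_den {E : Type} [Field E] [NumberField E] {y : E} {d : 𝓞 E} :
    d ∈ den y ↔ ∃ n : 𝓞 E, y * (d : E) = n := Iff.rfl

theorem pf_TRP : T_TRP := by
  intro F E _ _ _ _ _ P y hy
  -- a denominator in `F`
  obtain ⟨s, hs1, hs2⟩ : ∃ s : 𝓞 F, algebraMap (𝓞 F) (𝓞 E) s ∈ den y ∧ s ∉ P.asIdeal := by
    by_contra hcon
    push Not at hcon
    have h1 : (den y).comap (algebraMap (𝓞 F) (𝓞 E)) ≤ P.asIdeal := fun s hs => hcon s hs
    obtain ⟨Q, hQ1, hQ2, hQ3⟩ := Ideal.exists_ideal_over_prime_of_isIntegral P.asIdeal (den y) h1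
    have hQ0 : Q ≠ ⊥ := by
      rintro rfl
      refine P.ne_bot ?_
      rw [← hQ3, eq_bot_iff]
      intro x hx
      rw [Ideal.mem_comap, Ideal.mem_bot] at hx
      rw [Ideal.mem_bot]
      exact (FaithfulSMul.algebraMap_injective (𝓞 F) (𝓞 E)) (by rw [hx, map_zero])
    let Q' : HeightOneSpectrum (𝓞 E) := ⟨Q, hQ2, hQ0⟩
    obtain ⟨n, d, hnd⟩ := HeightOneSpectrum.exists_primeCompl_mul_eq_of_integer Q' y
      (hy ⟨Q', hQ3⟩)
    exact d.2 (hQ1 (mem_den.2 ⟨n, hnd⟩))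
  obtain ⟨n, hn⟩ := mem_den.1 hs1
  have h1 : Algebra.trace F E (y * ((algebraMap (𝓞 F) (𝓞 E) s : 𝓞 E) : E)) =
      (s : F) * Algebra.trace F E y := by
    have e : y * ((algebraMap (𝓞 F) (𝓞 E) s : 𝓞 E) : E) = (s : F) • y := by
      rw [Algebra.smul_def, mul_comm]
      rfl
    rw [e, map_smul, smul_eq_mul]
  have h2 : IsIntegral ℤ (Algebra.trace F E (n : E)) :=
    Algebra.isIntegral_trace (RingOfIntegers.isIntegral_coe n)
  have h3 : P.valuation F (Algebra.trace F E (n : E)) ≤ 1 :=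
    P.valuation_le_one (⟨_, h2⟩ : 𝓞 F)
  rw [← hn, h1, map_mul] at h3
  have h4 : P.valuation F (s : F) = 1 := (P.valuation_eq_one_iff_notMem).2 hs2
  rwa [h4, one_mul] at h3

end Pool.Agent.H71.RQ
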